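import Pool.Agent.MP_fcd29e_an.H11.CS

/-! Gluing along a neck. -/

set_option autoImplicit false

open Complex Set Filter Topology Metric Pool.Agent.MP_fcd29e_an.H11
open scoped ContDiff

namespace Pool.Agent.MP_fcd29e_an.H39

namespace CGU

theorem lap_congr {f g : ℂ → ℝ} {z : ℂ} (h : f =ᶠ[𝓝 z] g) : lap f z = lap g z := by
  have h2 : fderiv ℝ (fderiv ℝ f) z = fderiv ℝ (fderiv ℝ g) z := h.fderiv.fderiv_eq
  simp only [lap, lev, hs, h2]

theorem slice_congr {X : Type} [TopologicalSpace X] {f g : ℂ × X → ℝ} {s : ℂ} {x : X}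
    (h : f =ᶠ[𝓝 (s, x)] g) : (fun y => f (y, x)) =ᶠ[𝓝 s] fun y => g (y, x) := by
  have hc : ContinuousAt (fun y : ℂ => (y, x)) s := by fun_prop
  exact hc.tendsto.eventually h

theorem slice_smooth {X : Type} [NormedAddCommGroup X] [NormedSpace ℝ X] {f : ℂ × X → ℝ} {s : ℂ}
    {x : X} (h : ContDiffAt ℝ ∞ f (s, x)) : ContDiffAt ℝ 2 (fun y => f (y, x)) s := by
  have h1 : ContDiffAt ℝ 2 f (s, x) := h.of_le (WithTop.coe_le_coe.2 (le_top : (2 : ℕ∞) ≤ ⊤))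
  have h2 : ContDiffAt ℝ 2 (fun y : ℂ => (y, x)) s := contDiffAt_id.prodMk contDiffAt_const
  exact ContDiffAt.comp (g := f) (f := fun y : ℂ => (y, x)) s h1 h2

end CGU

theorem sgu (hHS : SHS) (hMN : SMN) : SGU := by
  classical
  have _ := hHS
  intro ι _ a b e r₁ r₂ r₃ he he1 _ h12 _ ha hb hin hout
  obtain ⟨M, hM, hL⟩ := hMN e he he1
  let f : ℂ × V ι → ℝ := fun q => if ‖q.1‖ < r₁ then a q else M (a q, b q)
  have hn : ∀ q : ℂ × V ι, ContinuousAt (fun q : ℂ × V ι => ‖q.1‖) q := fun q => by fun_prop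
  have hA : ∀ s : ℂ, ‖s‖ ≤ r₁ → ‖s‖ < r₃ → ∀ x ∈ cone ι, f =ᶠ[𝓝 (s, x)] a := by
    intro s hs hs3 x hx
    rcases hs.lt_or_eq with hs | hs
    · have h1 : ∀ᶠ q : ℂ × V ι in 𝓝 (s, x), ‖q.1‖ < r₁ :=
        (hn (s, x)).eventually_lt continuousAt_const hs
      filter_upwards [h1] with q hq
      simp only [f, if_pos hq]
    · have ca := (ha s hs3 x hx).1.continuousAt
      have cb := (hb s hs.ge hs3 x hx).1.continuousAt
      have h1 : ∀ᶠ q : ℂ × V ι in 𝓝 (s, x), 0 < a q :=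
        continuousAt_const.eventually_lt ca (ha s hs3 x hx).2.1
      have h2 : ∀ᶠ q : ℂ × V ι in 𝓝 (s, x), 0 < b q :=
        continuousAt_const.eventually_lt cb (hb s hs.ge hs3 x hx).2.1
      have h3 : ∀ᶠ q : ℂ × V ι in 𝓝 (s, x), a q < (1 - e) * b q :=
        ca.eventually_lt (continuousAt_const.mul cb) (hin s hs x hx)
      filter_upwards [h1, h2, h3] with q q1 q2 q3
      by_cases hq : ‖q.1‖ < r₁
      · simp only [f, if_pos hq]
      · simp only [f, if_neg hq]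
        exact (hM _ _ q1 q2).2.2.1 q3.le
  have hB : ∀ s : ℂ, r₁ < ‖s‖ → ∀ x : V ι, f =ᶠ[𝓝 (s, x)] fun q => M (a q, b q) := by
    intro s hs x
    have h1 : ∀ᶠ q : ℂ × V ι in 𝓝 (s, x), r₁ < ‖q.1‖ :=
      continuousAt_const.eventually_lt (hn (s, x)) hs
    filter_upwards [h1] with q hq
    simp only [f, if_neg (not_lt.2 hq.le)]
  have hH : ∀ s : ℂ, ‖s‖ < r₃ → ∀ x ∈ cone ι, ∀ l : ℝ, 0 < l →
      l ^ 20 * f (s, (l : ℂ) • x) = f (s, x) := by
    intro s hs x hx l hl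
    by_cases hq : ‖s‖ < r₁
    · simp only [f, if_pos hq]
      exact (ha s hs x hx).2.2.2 l hl
    · simp only [f, if_neg hq]
      have e1 := (ha s hs x hx).2.2.2 l hl
      have e2 := (hb s (not_lt.1 hq) hs x hx).2.2.2 l hl
      have hl' : 0 < l ^ 20 := pow_pos hl _
      have p1 : 0 < a (s, (l : ℂ) • x) :=
        (mul_pos_iff_of_pos_left hl').1 (e1 ▸ (ha s hs x hx).2.1)
      have p2 : 0 < b (s, (l : ℂ) • x) :=
        (mul_pos_iff_of_pos_left hl').1 (e2 ▸ (hb s (not_lt.1 hq) hs x hx).2.1)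
      rw [← (hM _ _ p1 p2).2.2.2.2 _ hl', e1, e2]
  refine ⟨f, fun s hs x hx => ?_, fun s hs2 hs x hx => ?_⟩
  · rcases le_or_gt ‖s‖ r₁ with h1 | h1
    · have hE := hA s h1 hs x hx
      obtain ⟨a1, a2, a3, -⟩ := ha s hs x hx
      refine ⟨a1.congr_of_eventuallyEq hE, ?_, ?_, hH s hs x hx⟩
      · rw [hE.eq_of_nhds]; exact a2
      · rw [CGU.lap_congr (CGU.slice_congr hE)]; exact a3
    · have hE := hB s h1 x
      obtain ⟨a1, a2, a3, -⟩ := ha s hs x hx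
      obtain ⟨b1, b2, b3, -⟩ := hb s h1.le hs x hx
      obtain ⟨m1, m2, -⟩ := hM _ _ a2 b2
      refine ⟨ContDiffAt.congr_of_eventuallyEq ?_ hE, ?_, ?_, hH s hs x hx⟩
      · exact ContDiffAt.comp (g := M) (f := fun q => (a q, b q)) (s, x) m1 (a1.prodMk b1)
      · rw [hE.eq_of_nhds]; exact m2
      · rw [CGU.lap_congr (CGU.slice_congr hE)]
        exact hL (fun y => a (y, x)) (fun y => b (y, x)) s (CGU.slice_smooth a1)
          (CGU.slice_smooth b1) a2 b2 a3 b3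
  · have h1 : r₁ < ‖s‖ := h12.trans_le hs2
    have hq : ¬ ‖s‖ < r₁ := not_lt.2 h1.le
    simp only [f, if_neg hq]
    exact (hM _ _ (ha s hs x hx).2.1 (hb s h1.le hs x hx).2.1).2.2.2.1 (hout s hs2 hs x hx).le

end Pool.Agent.MP_fcd29e_an.H39
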