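import Pool.Agent.MP_fcd29e_an.H81.Spec

/-!
Elementary properties of the Bochner–Martinelli kernel.
-/

set_option autoImplicit false

open Pool.Agent.MP_fcd29e_an.H81 MeasureTheory Complex Set Filter Topology Metric
open scoped ContDiff ComplexConjugate ENNReal NNReal

namespace Pool.Agent.MP_fcd29e_an.H39

noncomputable section

variable {N : ℕ}

lemma cut_smooth : ContDiff ℝ ∞ cut :=
  Real.smoothTransition.contDiff.comp (contDiff_id.sub contDiff_const)

lemma cut_zero {s : ℝ} (h : s ≤ 1) : cut s = 0 :=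
  Real.smoothTransition.zero_of_nonpos (by linarith)

lemma cut_one {s : ℝ} (h : 2 ≤ s) : cut s = 1 :=
  Real.smoothTransition.one_of_one_le (by linarith)

lemma cut_mono : Monotone cut := fun _ _ h => Real.smoothTransition.monotone (by linarith)

lemma cut_deriv (s : ℝ) : HasDerivAt cut (deriv cut s) s :=
  (cut_smooth.differentiable (by simp) s).hasDerivAt

lemma dcut_zero {s : ℝ} (h : 2 < s) : deriv cut s = 0 := by
  have : cut =ᶠ[𝓝 s] fun _ => 1 := (lt_mem_nhds h).mono fun _ k => cut_one k.le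
  rw [this.deriv_eq, deriv_const]

lemma four_le {r : ℝ} (hr : 0 < r) {y : E N} (h : 2 * r ≤ ‖y‖) : 4 ≤ ‖y‖ ^ 2 / r ^ 2 := by
  rw [le_div_iff₀ (by positivity)]
  nlinarith

lemma vol_pos : 0 < (volume : Measure (E N)).real (ball 0 1) :=
  ENNReal.toReal_pos (measure_ball_pos _ _ one_pos).ne' measure_ball_lt_top.ne

lemma cN_pos (hN : 1 ≤ N) : 0 < cN N :=
  inv_pos.2 (mul_pos (Nat.cast_pos.2 hN) vol_pos)

variable (j : Fin N)

lemma Ek_smul (c : ℂ) (y : E N) : Ek j (c • y) = conj c / (‖c‖ ^ (2 * N) : ℝ) * Ek j y := by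
  simp only [Ek, norm_smul, mul_pow, PiLp.smul_apply, smul_eq_mul, map_mul, ofReal_mul]
  ring

lemma Ek_real (hN : 1 ≤ N) {t : ℝ} (ht : 0 < t) (y : E N) :
    Ek j (t • y) = Ek j y / (t ^ (2 * N - 1) : ℝ) := by
  have h : (t : ℂ) ≠ 0 := ofReal_ne_zero.2 ht.ne'
  have e : t ^ (2 * N) = t ^ (2 * N - 1) * t := by rw [← pow_succ, Nat.sub_add_cancel (by omega)]
  rw [← Complex.coe_smul, Ek_smul, conj_ofReal, norm_real, Real.norm_of_nonneg ht.le, e]
  push_cast
  field_simp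

lemma Ek_neg (y : E N) : Ek j (-y) = -Ek j y := by
  simp only [Ek, norm_neg, PiLp.neg_apply, map_neg]
  ring

lemma Ek_norm (hN : 1 ≤ N) (y : E N) : ‖Ek j y‖ ≤ cN N / ‖y‖ ^ (2 * N - 1) := by
  have hc := cN_pos hN
  rcases eq_or_ne y 0 with rfl | hy
  · simp only [Ek, PiLp.zero_apply, map_zero, mul_zero, zero_div, norm_zero]
    positivity
  · have h : 0 < ‖y‖ := norm_pos_iff.2 hy
    have e : ‖y‖ ^ (2 * N) = ‖y‖ ^ (2 * N - 1) * ‖y‖ := by
      rw [← pow_succ, Nat.sub_add_cancel (by omega)]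
    rw [Ek, norm_div, norm_mul, norm_real, norm_real, norm_conj, Real.norm_of_nonneg hc.le,
      Real.norm_of_nonneg (by positivity), e, ← mul_div_mul_right (cN N) _ h.ne']
    exact div_le_div_of_nonneg_right
      (mul_le_mul_of_nonneg_left (PiLp.norm_apply_le y j) hc.le) (by positivity)

lemma conj_smooth : ContDiff ℝ ∞ fun y : E N => conj (y j) :=
  contDiff_iff_contDiffAt.2 fun _ => contDiffAt_conj (contDiff_coord j).contDiffAt

lemma Ek_meas : Measurable (Ek j) :=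
  (measurable_const.mul (conj_smooth j).continuous.measurable).div
    (continuous_ofReal.comp (continuous_norm.pow _)).measurable

lemma Ek_loc (hN : 1 ≤ N) : LocallyIntegrable (Ek j) := by
  refine locallyIntegrable_of_norm_le_rpow (C := cN N) (α := ((2 * N - 1 : ℕ) : ℝ))
    (by rw [finrank_E]; omega) (by rw [finrank_E]; exact Nat.cast_lt.2 (by omega))
    (ae_of_all _ fun y => ?_) (Ek_meas j).aestronglyMeasurable
  rw [Real.rpow_neg (norm_nonneg _), Real.rpow_natCast]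
  exact Ek_norm j hN y

lemma nsq_smooth : ContDiff ℝ ∞ fun y : E N => ‖y‖ ^ 2 := contDiff_norm_sq ℂ

lemma Ek_smooth : ContDiffOn ℝ ∞ (Ek j) (E0 N) := fun y hy => by
  have h : ‖y‖ ≠ 0 := norm_ne_zero_iff.2 hy
  have h1 : ContDiffAt ℝ ∞ (cx fun y : E N => (‖y‖ ^ (2 * N))⁻¹) y := by
    simp only [pow_mul]
    exact contDiffAt_cx ((nsq_smooth.contDiffAt.pow N).inv (by positivity))
  have e : Ek j = fun y : E N => (cN N : ℂ) * conj (y j) * cx (fun y => (‖y‖ ^ (2 * N))⁻¹) y := by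
    funext y
    simp only [Ek, cx, ofReal_inv, div_eq_mul_inv]
  rw [e]
  exact ((contDiffAt_const.mul (conj_smooth j).contDiffAt).mul h1).contDiffWithinAt

/-- The radial profile of the far part. -/
def gg (N : ℕ) (r s : ℝ) : ℝ := cut (s / r ^ 2) / s ^ N

lemma gg_zero {r : ℝ} (hr : 0 < r) : gg N r =ᶠ[𝓝 0] fun _ => 0 :=
  (gt_mem_nhds (show 0 < r ^ 2 by positivity)).mono fun s k => by
    rw [gg, cut_zero ((div_le_one (by positivity)).2 k.le), zero_div]

lemma gg_smooth {r : ℝ} (hr : 0 < r) : ContDiff ℝ ∞ (gg N r) :=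
  contDiff_iff_contDiffAt.2 fun s => by
    rcases eq_or_ne s 0 with rfl | hs
    · exact contDiffAt_const.congr_of_eventuallyEq (gg_zero hr)
    · exact (cut_smooth.comp (contDiff_id.div_const _)).contDiffAt.div (contDiffAt_id.pow N)
        (pow_ne_zero N hs)

lemma gg_deriv {r : ℝ} (hr : 0 < r) (s : ℝ) :
    deriv (gg N r) s * s + N * gg N r s = deriv cut (s / r ^ 2) * s / (r ^ 2 * s ^ N) := by
  rcases eq_or_ne s 0 with rfl | hs
  · rw [(gg_zero hr).self_of_nhds]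
    simp
  · have h1 : HasDerivAt (fun s => cut (s / r ^ 2)) (deriv cut (s / r ^ 2) * (1 / r ^ 2)) s :=
      (cut_deriv _).comp s ((hasDerivAt_id s).div_const _)
    have h2 := (h1.fun_div (hasDerivAt_pow N s) (pow_ne_zero N hs)).deriv
    have e : (N : ℝ) * s ^ (N - 1) = N * s ^ N / s := by
      rcases N with _ | n
      · simp
      · rw [Nat.add_sub_cancel, pow_succ]
        field_simp
    rw [show deriv (gg N r) s = _ from h2, gg, e]
    field_simp
    ring

lemma Phi_eq (r : ℝ) : Phi j r =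
    fun y : E N => (cN N : ℂ) * (cx (fun y => gg N r (‖y‖ ^ 2)) y * conj (y j)) := by
  funext y
  simp only [Phi, Ek, cx, gg, pow_mul, ofReal_div]
  ring

lemma Phi_smooth {r : ℝ} (hr : 0 < r) : ContDiff ℝ ∞ (Phi j r) := by
  rw [Phi_eq]
  exact contDiff_const.mul ((contDiff_iff_contDiffAt.2 fun _ =>
    contDiffAt_cx ((gg_smooth hr).comp nsq_smooth).contDiffAt).mul (conj_smooth j))

lemma Phi_far {r : ℝ} (hr : 0 < r) {y : E N} (h : 2 * r ≤ ‖y‖) : Phi j r y = Ek j y := by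
  rw [Phi, cut_one (by linarith [four_le hr h]), ofReal_one, one_mul]

lemma Phi_sym (hN : 1 ≤ N) : Sym (2 * N - 1) (Phi j 1) := by
  refine ⟨Phi_smooth j one_pos, fun y hy t ht => ?_⟩
  rw [Phi_far j one_pos (y := y) (by linarith), Phi_far j one_pos, Ek_real j hN (by linarith)]
  rw [norm_smul, Real.norm_of_nonneg (by linarith)]
  nlinarith

lemma kk_int (hN : 1 ≤ N) {r : ℝ} (hr : 0 < r) : Integrable (kk j r) := by
  have h : Function.support (kk j r) ⊆ closedBall 0 (2 * r) := fun y hy => by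
    by_contra k
    rw [mem_closedBall_zero_iff, not_le] at k
    exact hy (by rw [kk, Phi_far j hr k.le, sub_self])
  rw [← integrableOn_iff_integrable_of_support_subset h]
  exact ((Ek_loc j hN).sub (Phi_smooth j hr).continuous.locallyIntegrable).integrableOn_isCompact
    (isCompact_closedBall _ _)

lemma nsq_inv {r : ℝ} (hr : 0 < r) (y : E N) : ‖r⁻¹ • y‖ ^ 2 = ‖y‖ ^ 2 / r ^ 2 := by
  rw [norm_smul, Real.norm_of_nonneg (by positivity)]
  ring

lemma Phi_scale (hN : 1 ≤ N) {r : ℝ} (hr : 0 < r) (y : E N) :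
    Phi j r y = Phi j 1 (r⁻¹ • y) / (r ^ (2 * N - 1) : ℝ) := by
  have h : (r : ℂ) ≠ 0 := ofReal_ne_zero.2 hr.ne'
  rw [Phi, Phi, Ek_real j hN (inv_pos.2 hr), nsq_inv hr, one_pow, div_one, inv_pow]
  push_cast
  field_simp

lemma Phi_le (r : ℝ) (y : E N) : ‖Phi j r y‖ ≤ ‖Ek j y‖ := by
  rw [Phi, norm_mul, norm_real, cut, Real.norm_of_nonneg (Real.smoothTransition.nonneg _)]
  exact mul_le_of_le_one_left (norm_nonneg _) (Real.smoothTransition.le_one _)

lemma Phi_smul (r : ℝ) (y : E N) {c : ℂ} (hc : c ≠ 0) :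
    Phi j (‖c‖ * r) (c • y) = conj c / (‖c‖ ^ (2 * N) : ℝ) * Phi j r y := by
  rw [Phi, Phi, Ek_smul, norm_smul, mul_pow, mul_pow,
    mul_div_mul_left _ _ (pow_ne_zero 2 (norm_ne_zero_iff.2 hc))]
  ring

/-- The radial profile of the divergence. -/
def et (N : ℕ) (r s : ℝ) : ℝ := cN N * (deriv cut (s / r ^ 2) * s / (r ^ 2 * s ^ N))

lemma eta_eq {r : ℝ} (hr : 0 < r) (y : E N) : eta r y = (et N r (‖y‖ ^ 2) : ℝ) := by
  have h1 : DifferentiableAt ℝ (cx fun y : E N => gg N r (‖y‖ ^ 2)) y :=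
    ContDiffAt.da (contDiffAt_cx ((gg_smooth hr).comp nsq_smooth).contDiffAt)
  have h2 : ∀ j, dzb j (Phi j r) y = (cN N : ℂ) * ((deriv (gg N r) (‖y‖ ^ 2) : ℝ) *
      (y j * conj (y j)) + (gg N r (‖y‖ ^ 2) : ℝ)) := fun j => by
    have h3 := ContDiffAt.da (conj_smooth j).contDiffAt (z := y)
    rw [Phi_eq, dzb_const_mul j _ (h1.fun_mul h3), dzb_mul j h1 h3, dzb_coord_conj, if_pos rfl,
      dzb_comp_real j (nsq_smooth.differentiable (by simp) y)
        ((gg_smooth hr).differentiable (by simp) _).hasDerivAt, dzb_normSq]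
    ring
  simp only [H81.eta, h2]
  rw [← Finset.mul_sum, Finset.sum_add_distrib, ← Finset.mul_sum, ← norm_sq_eq, et,
    ← gg_deriv hr]
  simp

lemma et_nonneg (hN : 1 ≤ N) (r : ℝ) {s : ℝ} (hs : 0 ≤ s) : 0 ≤ et N r s := by
  have := cN_pos hN
  have := cut_mono.deriv_nonneg (x := s / r ^ 2)
  unfold et
  positivity

lemma eta_far {r : ℝ} (hr : 0 < r) {y : E N} (h : 2 * r ≤ ‖y‖) : eta r y = 0 := by
  rw [eta_eq hr, et, dcut_zero (by linarith [four_le hr h])]
  simp

lemma eta_tst {r : ℝ} (hr : 0 < r) : Tst (eta r : E N → ℂ) :=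
  ⟨ContDiff.sum fun j _ => contDiff_iff_contDiffAt.2 fun _ =>
      contDiffAt_dzb j (Phi_smooth j hr).contDiffAt,
    HasCompactSupport.intro (isCompact_closedBall 0 (2 * r)) fun _ hy =>
      eta_far hr (not_le.1 (mt mem_closedBall_zero_iff.2 hy)).le⟩

lemma eta_scale {r : ℝ} (hr : 0 < r) (y : E N) :
    eta r y = eta 1 (r⁻¹ • y) / (r ^ (2 * N) : ℝ) := by
  rw [eta_eq hr, eta_eq one_pos, nsq_inv hr, ← ofReal_div, et, et]
  refine congrArg _ ?_
  rcases eq_or_ne ‖y‖ 0 with h | h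
  · simp [h]
  · rw [div_pow, ← pow_mul r, one_pow, div_one]
    field_simp

lemma eta_int (hN : 1 ≤ N) {r : ℝ} (hr : 0 < r) : ∫ y : E N, eta r y = 1 := by
  have : Nontrivial (E N) := Module.nontrivial_of_finrank_pos (R := ℝ) (by rw [finrank_E]; omega)
  have h1 : ∫ s in Ioi (0 : ℝ), deriv cut (s ^ 2 / r ^ 2) * (2 * s / r ^ 2) =
      1 - cut (0 ^ 2 / r ^ 2) := by
    refine integral_Ioi_of_hasDerivAt_of_nonneg' (g := fun s => cut (s ^ 2 / r ^ 2))
      (fun s _ => ?_) (fun s hs => mul_nonneg cut_mono.deriv_nonneg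
        (div_nonneg (by linarith [hs.out]) (by positivity))) ?_
    · exact ((cut_deriv _).comp s ((hasDerivAt_pow 2 s).div_const (r ^ 2))).congr_deriv (by simp)
    · refine tendsto_const_nhds.congr' ((eventually_ge_atTop (2 * r)).mono fun s hs => ?_)
      refine (cut_one ?_).symm
      rw [le_div_iff₀ (by positivity)]
      nlinarith
  have h2 : ∫ s in Ioi (0 : ℝ), s ^ (2 * N - 1) • et N r (s ^ 2) =
      ∫ s in Ioi (0 : ℝ), cN N / 2 * (deriv cut (s ^ 2 / r ^ 2) * (2 * s / r ^ 2)) := by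
    refine setIntegral_congr_fun measurableSet_Ioi fun s hs => ?_
    have h0 : s ≠ 0 := ne_of_gt hs
    have e : (s ^ 2) ^ N = s ^ (2 * N - 1) * s := by
      rw [← pow_succ, Nat.sub_add_cancel (by omega), pow_mul]
    simp only [et, smul_eq_mul, e]
    field_simp
  have h3 := integral_fun_norm_addHaar (volume : Measure (E N)) fun s => et N r (s ^ 2)
  rw [finrank_E, h2, integral_const_mul, h1, cut_zero (by simp)] at h3
  have hv := vol_pos (N := N)
  have hN' : (0 : ℝ) < N := Nat.cast_pos.2 hN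
  simp only [eta_eq hr]
  rw [integral_complex_ofReal, h3, cN, nsmul_eq_mul, smul_eq_mul, ← ofReal_one]
  refine congrArg _ ?_
  push_cast
  field_simp
  ring

lemma sym_fderiv {d : ℕ} {Φ : E N → ℂ} (h : Sym d Φ) (v : E N) :
    Sym (d + 1) fun y => fderiv ℝ Φ y v := by
  have h1 : ContDiff ℝ ∞ fun y => fderiv ℝ Φ y v :=
    contDiff_iff_contDiffAt.2 fun _ => contDiffAt_fderiv_apply h.1.contDiffAt v
  refine ⟨h1, fun y hy t ht => ?_⟩
  have h2 : IsClosed {y : E N | fderiv ℝ Φ (t • y) v = fderiv ℝ Φ y v / (t ^ (d + 1) : ℝ)} :=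
    isClosed_eq (h1.continuous.comp (continuous_const_smul t)) (h1.continuous.div_const _)
  have h3 : y ∈ closure (closedBall (0 : E N) 2)ᶜ := by
    rw [closure_compl, interior_closedBall _ two_ne_zero]
    simpa using hy
  refine h2.closure_subset_iff.2 (fun x hx => ?_) h3
  have h4 : (fun z => Φ (t • z)) =ᶠ[𝓝 x] fun z => ((t ^ d : ℝ) : ℂ)⁻¹ * Φ z := by
    filter_upwards [isClosed_closedBall.isOpen_compl.mem_nhds hx] with z hz
    rw [h.2 z (not_le.1 (mt mem_closedBall_zero_iff.2 hz)).le t ht, div_eq_inv_mul]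
  have h5 := congrArg (fun A : E N →L[ℝ] ℂ => A v) h4.fderiv_eq
  have h6 : (t : ℂ) ≠ 0 := ofReal_ne_zero.2 (by linarith)
  simp only [fderiv_comp_smul, fderiv_const_mul (ContDiffAt.da h.1.contDiffAt),
    smul_apply, smul_eq_mul, real_smul] at h5
  change fderiv ℝ Φ (t • x) v = _
  rw [← mul_right_inj' h6, h5, pow_succ]
  push_cast
  field_simp

lemma sym_bound {d : ℕ} {Φ : E N → ℂ} (h : Sym d Φ) :
    ∃ C : ℝ, ∀ y, ‖Φ y‖ ≤ C / (1 + ‖y‖) ^ d := by
  obtain ⟨M, hM⟩ := (isCompact_closedBall (0 : E N) 2).exists_bound_of_continuousOn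
    h.1.continuous.continuousOn
  have hM0 : 0 ≤ M := (norm_nonneg _).trans (hM 0 (by simp))
  refine ⟨M * 3 ^ d, fun y => ?_⟩
  have h0 := norm_nonneg y
  rw [le_div_iff₀ (by positivity)]
  rcases le_total ‖y‖ 2 with hy | hy
  · exact mul_le_mul (hM y (mem_closedBall_zero_iff.2 hy))
      (pow_le_pow_left₀ (by positivity) (by linarith) d) (by positivity) hM0
  · have ht : 0 < ‖y‖ / 2 := by linarith
    have e : ‖(‖y‖ / 2)⁻¹ • y‖ = 2 := by
      rw [norm_smul, Real.norm_of_nonneg (by positivity)]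
      field_simp
    have h1 := h.2 _ e.ge (‖y‖ / 2) (by linarith)
    rw [smul_inv_smul₀ ht.ne'] at h1
    rw [h1, norm_div, norm_real, Real.norm_of_nonneg (by positivity), div_mul_eq_mul_div,
      div_le_iff₀ (by positivity), mul_assoc, ← mul_pow]
    exact mul_le_mul (hM _ (mem_closedBall_zero_iff.2 e.le))
      (pow_le_pow_left₀ (by positivity) (by linarith) d) (by positivity) hM0

theorem bm1' : StmtBM1 := fun _ hN =>
  ⟨cN_pos hN, fun j => ⟨Ek_meas j, Ek_loc j hN, Ek_smooth j,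
    fun y => ⟨Ek_neg j y, Ek_norm j hN y, fun c _ => Ek_smul j c y⟩, Phi_sym j hN,
    fun r hr => ⟨Phi_smooth j hr, kk_int j hN hr, fun y => ⟨Phi_scale j hN hr y,
      fun h => ⟨Phi_far j hr h, by rw [kk, Phi_far j hr h, sub_self]⟩, Phi_le j r y,
      fun _ hc => Phi_smul j r y hc⟩⟩⟩,
    fun r hr => ⟨eta_tst hr, eta_int hN hr, fun y =>
      ⟨by rw [eta_eq hr, ofReal_re]; exact et_nonneg hN r (sq_nonneg _),
        by rw [eta_eq hr, ofReal_im], eta_far hr, by rw [eta_eq hr, eta_eq hr, norm_neg],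
        eta_scale hr y⟩⟩,
    fun _ _ h => ⟨sym_fderiv h, sym_bound h⟩⟩

theorem bm1 (_h0 : StmtT0) : StmtBM1 := bm1'

end

end Pool.Agent.MP_fcd29e_an.H39
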